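import Pool.Agent.Lib.MP_32d347_h49.Link

/-! Orders of the Galois groups `G_n` of the iterates `f^n`, `f = X^2 + 1`, over `ℚ_[2]`. -/

namespace Pool.Agent.Results.MP_32d347_nt.OrderBounds

open Polynomial

/-- For `f = X^2 + 1` over `ℚ_[2]`, with `f^n = f.comp^[n] X` the `n`-th iterate, the Galois group
`G_n` of the splitting field of `f^n` has order `2 ^ g n`, where `g 1, …, g 6 = 1, 3, 7, 12, 23, 45`,
and for all `n ≥ 4` one has `(2^(n+1) + n) / 3 ≤ g n ≤ 11 * 2^(n-4) + 1`, and the increments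
`d n = g (n+1) - g n` satisfy `d (n+2) ≥ 2^(n+1) + d n`. -/
theorem result :
    ∃ g : ℕ → ℕ,
      (∀ n, Nat.card ((X ^ 2 + 1 : ℚ_[2][X]).comp^[n] X).Gal = 2 ^ g n) ∧
      g 1 = 1 ∧ g 2 = 3 ∧ g 3 = 7 ∧ g 4 = 12 ∧ g 5 = 23 ∧ g 6 = 45 ∧
      (∀ n, 4 ≤ n → 2 ^ (n + 1) + n ≤ 3 * g n ∧ g n ≤ 11 * 2 ^ (n - 4) + 1) ∧
      (∀ n, 4 ≤ n → 2 ^ (n + 1) + (g (n + 1) - g n) ≤ g (n + 3) - g (n + 2)) := by
  have hiter : ∀ n, ((X ^ 2 + 1 : ℚ_[2][X]).comp^[n] X) = Arb49.fIter n := by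
    intro n
    induction n with
    | zero => rfl
    | succ n ih =>
      rw [Function.iterate_succ_apply', ih, Arb49.fIter]
      simp
  refine ⟨Arb49.g, fun n => ?_, Arb49.g_one, Arb49.g_two, Arb49.g_three, Arb49.g_four, Arb49.g_five,
    Arb49.g_six, fun n hn => ?_, fun n hn => ?_⟩
  · rw [hiter]; exact Arb49.card_Gal n
  · obtain ⟨m, rfl⟩ : ∃ m, n = m + 4 := ⟨n - 4, by omega⟩
    have h1 := Arb49.g_lower m
    have h2 := Arb49.g_upper m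
    have e1 : m + 4 + 1 = m + 5 := by ring
    have e2 : m + 4 - 4 = m := by omega
    rw [e1, e2]
    exact ⟨by omega, h2⟩
  · have h1 := Arb49.v_rec hn
    have h2 := Arb49.g_succ n
    have h3 : Arb49.g (n + 3) = Arb49.g (n + 2) + Arb49.v (n + 2) := Arb49.g_succ (n + 2)
    omega

end Pool.Agent.Results.MP_32d347_nt.OrderBounds
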